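import Mathlib

/-!
# Commuting `H`-polar decompositions of an `H`-indecomposable matrix are unique up to sign

If `X = U A = A U = U' A' = A' U'` then `W = U⁻¹ U'` is `H`-unitary, commutes with `X` and with
`X^[*]`, and `A' = A W = W⁻¹ A`.  Indecomposability forces the eigenvalues of `U` and of `W` to be
of the form `{a, 1 / conj a}`.  The matrix `G = A (W⁻¹ - W)` anticommutes with `U`, so `G = 0`, as
`U` and `-U` have no common eigenvalue.  Finally `A (W - 1) (W + 1) = 0` gives `A' = A` or
`A' = -A`.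
-/

open Matrix Polynomial

namespace Pool.Agent.Results.MP_d7084b_al.UniqueUpToSign

variable {n : ℕ}

/-- The `H`-adjoint `M^[*] = H⁻¹ M* H`. -/
noncomputable def adj (H M : Matrix (Fin n) (Fin n) ℂ) : Matrix (Fin n) (Fin n) ℂ :=
  H⁻¹ * Mᴴ * H

/-- The indefinite inner product `[x, y] = ⟨H x, y⟩ = x* H y`. -/
noncomputable def form (H : Matrix (Fin n) (Fin n) ℂ) (x y : Fin n → ℂ) : ℂ :=
  star x ⬝ᵥ (H *ᵥ y)

/-- `X = U A` is an `H`-polar decomposition: `U` is `H`-unitary and `A` is `H`-selfadjoint. -/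
def IsPolar (H X U A : Matrix (Fin n) (Fin n) ℂ) : Prop :=
  X = U * A ∧ adj H U * U = 1 ∧ adj H A = A

/-- The set of the `H`-selfadjoint factors `A` of `H`-polar decompositions `X = U A` with commuting
factors; its cardinality is `CPD(X, H)`. -/
def cpdSet (H X : Matrix (Fin n) (Fin n) ℂ) : Set (Matrix (Fin n) (Fin n) ℂ) :=
  {A | ∃ U, IsPolar H X U A ∧ U * A = A * U}

/-- The subspace `W` is `H`-nondegenerate. -/
def Nondegenerate (H : Matrix (Fin n) (Fin n) ℂ) (W : Submodule ℂ (Fin n → ℂ)) : Prop :=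
  ∀ x ∈ W, (∀ y ∈ W, form H x y = 0) → x = 0

/-- `X` is `H`-decomposable: some nontrivial proper `H`-nondegenerate subspace is invariant under
`X` and `X^[*]`. -/
def Decomposable (H X : Matrix (Fin n) (Fin n) ℂ) : Prop :=
  ∃ W : Submodule ℂ (Fin n → ℂ), W ≠ ⊥ ∧ W ≠ ⊤ ∧ Nondegenerate H W ∧
    (∀ x ∈ W, X *ᵥ x ∈ W) ∧ ∀ x ∈ W, adj H X *ᵥ x ∈ W

section basic
variable {H : Matrix (Fin n) (Fin n) ℂ}

theorem adj_mul (hu : IsUnit H.det) (M N : Matrix (Fin n) (Fin n) ℂ) :
    adj H (M * N) = adj H N * adj H M := by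
  unfold adj
  rw [conjTranspose_mul]
  have h := mul_nonsing_inv H hu
  calc H⁻¹ * (Nᴴ * Mᴴ) * H = H⁻¹ * Nᴴ * 1 * Mᴴ * H := by simp [Matrix.mul_assoc]
    _ = H⁻¹ * Nᴴ * H * (H⁻¹ * Mᴴ * H) := by rw [← h]; simp [Matrix.mul_assoc]

theorem adj_adj (hH : H.IsHermitian) (hu : IsUnit H.det) (M : Matrix (Fin n) (Fin n) ℂ) :
    adj H (adj H M) = M := by
  unfold adj
  rw [conjTranspose_mul, conjTranspose_mul, conjTranspose_conjTranspose, hH.eq,
    conjTranspose_nonsing_inv, hH.eq]
  have h1 := nonsing_inv_mul H hu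
  calc H⁻¹ * (H * (M * H⁻¹)) * H = (H⁻¹ * H) * M * (H⁻¹ * H) := by simp [Matrix.mul_assoc]
    _ = M := by rw [h1]; simp

/-- The adjoint relation. -/
theorem form_adj (hu : IsUnit H.det) (M : Matrix (Fin n) (Fin n) ℂ) (x y : Fin n → ℂ) :
    form H (M *ᵥ x) y = form H x (adj H M *ᵥ y) := by
  unfold form adj
  rw [star_mulVec, ← dotProduct_mulVec, mulVec_mulVec, mulVec_mulVec]
  congr 2
  rw [← Matrix.mul_assoc, ← Matrix.mul_assoc, mul_nonsing_inv H hu, Matrix.one_mul]

theorem eq_zero_of_form (hu : IsUnit H.det) {x : Fin n → ℂ}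
    (h : ∀ y, form H x y = 0) : x = 0 := by
  have h1 : ∀ z, star x ⬝ᵥ z = 0 := by
    intro z
    have h2 := h (H⁻¹ *ᵥ z)
    unfold form at h2
    rwa [mulVec_mulVec, mul_nonsing_inv H hu, one_mulVec] at h2
  funext i
  have h3 := h1 (Pi.single i 1)
  rw [dotProduct_single_one] at h3
  exact star_eq_zero.1 h3

theorem form_sub_left (x x' y : Fin n → ℂ) : form H (x - x') y = form H x y - form H x' y := by
  unfold form; rw [star_sub, sub_dotProduct]

theorem form_smul_left (c : ℂ) (x y : Fin n → ℂ) : form H (c • x) y = star c * form H x y := by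
  unfold form; rw [star_smul, smul_dotProduct, smul_eq_mul]

theorem form_sub_right (x y y' : Fin n → ℂ) : form H x (y - y') = form H x y - form H x y' := by
  unfold form; rw [mulVec_sub, dotProduct_sub]

theorem form_add_right (x y y' : Fin n → ℂ) : form H x (y + y') = form H x y + form H x y' := by
  unfold form; rw [mulVec_add, dotProduct_add]

theorem form_add_left (x x' y : Fin n → ℂ) : form H (x + x') y = form H x y + form H x' y := by
  unfold form; rw [star_add, add_dotProduct]

theorem form_smul_right (c : ℂ) (x y : Fin n → ℂ) : form H x (c • y) = c * form H x y := by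
  unfold form; rw [mulVec_smul, dotProduct_smul, smul_eq_mul]

theorem form_zero_right (x : Fin n → ℂ) : form H x 0 = 0 := by
  unfold form; rw [mulVec_zero, dotProduct_zero]

end basic

/-- The generalised eigenspace of `Z` for `a`. -/
noncomputable def gen (Z : Matrix (Fin n) (Fin n) ℂ) (a : ℂ) : Submodule ℂ (Fin n → ℂ) :=
  Module.End.maxGenEigenspace (Matrix.mulVecLin Z) a

theorem gen_mapsTo {Z M : Matrix (Fin n) (Fin n) ℂ} (h : M * Z = Z * M) (a : ℂ)
    {x : Fin n → ℂ} (hx : x ∈ gen Z a) : M *ᵥ x ∈ gen Z a := by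
  have hc : Commute (Matrix.mulVecLin Z) (Matrix.mulVecLin M) := by
    show Matrix.mulVecLin Z ∘ₗ Matrix.mulVecLin M = Matrix.mulVecLin M ∘ₗ Matrix.mulVecLin Z
    rw [← Matrix.mulVecLin_mul, ← Matrix.mulVecLin_mul, h]
  exact Module.End.mapsTo_maxGenEigenspace_of_comm hc a hx

/-- Orthogonality of generalised eigenspaces of an `H`-unitary matrix. -/
theorem orth {H Z : Matrix (Fin n) (Fin n) ℂ} (hu : IsUnit H.det) (hZ : adj H Z * Z = 1)
    {a b : ℂ} (hab : star a * b ≠ 1) {x y : Fin n → ℂ} (hx : x ∈ gen Z a) (hy : y ∈ gen Z b) :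
    form H x y = 0 := by
  have hZ' : Z * adj H Z = 1 := mul_eq_one_comm.1 hZ
  set D : Matrix (Fin n) (Fin n) ℂ := adj H Z - star a • 1 with hD
  have hDZ : D * Z = Z * D := by
    rw [hD, Matrix.sub_mul, Matrix.mul_sub, hZ, hZ']
    simp
  -- `D` is bijective on the generalised eigenspace for `b`
  have hmaps : ∀ y ∈ gen Z b, (Matrix.mulVecLin D) y ∈ gen Z b := fun y hy => gen_mapsTo hDZ b hy
  have hinj : Function.Injective ((Matrix.mulVecLin D).restrict hmaps) := by
    rw [← LinearMap.ker_eq_bot, LinearMap.ker_eq_bot']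
    rintro ⟨y, hy⟩ h0
    have h1 : D *ᵥ y = 0 := congrArg Subtype.val h0
    rw [hD, sub_mulVec, smul_mulVec, one_mulVec, sub_eq_zero] at h1
    -- `y = conj a * Z y`
    have h2 : y = star a • (Z *ᵥ y) := by
      calc y = (Z * adj H Z) *ᵥ y := by rw [hZ', one_mulVec]
        _ = Z *ᵥ (adj H Z *ᵥ y) := by rw [mulVec_mulVec]
        _ = star a • (Z *ᵥ y) := by rw [h1, mulVec_smul]
    apply Subtype.ext
    show y = 0
    by_cases ha : star a = 0
    · rw [h2, ha, zero_smul]
    · have h3 : Matrix.mulVecLin Z y = (star a)⁻¹ • y := by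
        show Z *ᵥ y = (star a)⁻¹ • y
        conv_rhs => rw [h2]
        rw [smul_smul, inv_mul_cancel₀ ha, one_smul]
      have h4 : y ∈ gen Z (star a)⁻¹ := by
        unfold gen
        rw [Module.End.mem_maxGenEigenspace]
        refine ⟨1, ?_⟩
        rw [pow_one, LinearMap.sub_apply, h3]
        simp
      have hne : b ≠ (star a)⁻¹ := by
        intro h
        apply hab
        rw [h, mul_inv_cancel₀ ha]
      have hdis := Module.End.disjoint_genEigenspace (Matrix.mulVecLin Z) hne ⊤ ⊤
      exact Submodule.disjoint_def.1 hdis y hy h4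
  have hsurj : Function.Surjective ((Matrix.mulVecLin D).restrict hmaps) :=
    LinearMap.injective_iff_surjective.1 hinj
  have key : ∀ (k : ℕ) (x : Fin n → ℂ),
      ((Matrix.mulVecLin Z - a • (1 : Module.End ℂ (Fin n → ℂ))) ^ k) x = 0 →
      ∀ y ∈ gen Z b, form H x y = 0 := by
    intro k
    induction k with
    | zero =>
      intro x hx y _
      have : x = 0 := by simpa using hx
      rw [this]
      unfold form
      rw [star_zero, zero_dotProduct]
    | succ k ih =>
      intro x hx y hy
      obtain ⟨⟨y', hy'⟩, he⟩ := hsurj ⟨y, hy⟩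
      have he' : D *ᵥ y' = y := congrArg Subtype.val he
      rw [pow_succ, Module.End.mul_apply] at hx
      have h1 := ih _ hx y' hy'
      have h2 : (Matrix.mulVecLin Z - a • (1 : Module.End ℂ (Fin n → ℂ))) x = Z *ᵥ x - a • x := by
        simp
      rw [h2, form_sub_left, form_smul_left, form_adj hu, ← form_smul_right, ← form_sub_right] at h1
      rw [← he', hD, sub_mulVec, smul_mulVec, one_mulVec]
      exact h1
  obtain ⟨k, hk⟩ := (Module.End.mem_maxGenEigenspace _ _ _).1 hx
  exact key k x hk y hy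

/-- Eigenvalues of an `H`-unitary matrix commuting with `X` and `X^[*]`, `X` being
`H`-indecomposable. -/
theorem spec_pair {H X Z : Matrix (Fin n) (Fin n) ℂ} (hu : IsUnit H.det)
    (hind : ¬ Decomposable H X) (hZ : adj H Z * Z = 1) (hZX : X * Z = Z * X)
    (hZX' : adj H X * Z = Z * adj H X) {a b : ℂ} {x y : Fin n → ℂ} (hx0 : x ≠ 0)
    (hx : Z *ᵥ x = a • x) (hy0 : y ≠ 0) (hy : Z *ᵥ y = b • y) : b = a ∨ star a * b = 1 := by
  by_contra hcon
  push Not at hcon
  obtain ⟨hba, hab⟩ := hcon
  have hmem : ∀ (c : ℂ) (v : Fin n → ℂ), Z *ᵥ v = c • v → v ∈ gen Z c := by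
    intro c v hv
    unfold gen
    rw [Module.End.mem_maxGenEigenspace]
    refine ⟨1, ?_⟩
    rw [pow_one, LinearMap.sub_apply]
    have : Matrix.mulVecLin Z v = c • v := hv
    rw [this]
    simp
  let S : Set ℂ := {c | c = a ∨ star a * c = 1}
  let E : Submodule ℂ (Fin n → ℂ) := ⨆ c ∈ S, gen Z c
  let E' : Submodule ℂ (Fin n → ℂ) := ⨆ c ∈ Sᶜ, gen Z c
  have htop : E ⊔ E' = ⊤ := by
    rw [eq_top_iff, ← Module.End.iSup_maxGenEigenspace_eq_top (Matrix.mulVecLin Z)]
    refine iSup_le fun c => ?_
    by_cases hc : c ∈ S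
    · exact le_sup_of_le_left (le_iSup₂_of_le c hc le_rfl)
    · exact le_sup_of_le_right (le_iSup₂_of_le c hc le_rfl)
  -- `E` and `E'` are orthogonal
  have horth : ∀ u ∈ E, ∀ v ∈ E', form H u v = 0 := by
    intro u hu'
    refine Submodule.iSup_induction' (motive := fun u _ => ∀ v ∈ E', form H u v = 0) _ ?_ ?_ ?_ hu'
    · intro c u hc v hv
      by_cases hcS : c ∈ S
      · have hc' : u ∈ gen Z c := by simpa [hcS] using hc
        refine Submodule.iSup_induction' (motive := fun v _ => form H u v = 0) _ ?_ ?_ ?_ hv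
        · intro d v hd
          by_cases hdS : d ∈ Sᶜ
          · have hd' : v ∈ gen Z d := by simpa [hdS] using hd
            refine orth hu hZ ?_ hc' hd'
            intro hcd
            apply hdS
            rcases hcS with hca | hca
            · right
              rw [← hca]; exact hcd
            · left
              -- `conj a * c = 1` and `conj c * d = 1` give `d = a`
              have h1 : star c ≠ 0 := left_ne_zero_of_mul (by rw [hcd]; exact one_ne_zero)
              have h2 : star c * a = 1 := by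
                have := congrArg star hca
                rw [star_mul, star_star, star_one] at this
                exact this
              exact mul_left_cancel₀ h1 (hcd.trans h2.symm)
          · have : v = 0 := by simpa [hdS] using hd
            rw [this, form_zero_right]
        · exact form_zero_right _
        · intro v v' _ _ h1 h2
          rw [form_add_right, h1, h2, add_zero]
      · have : u = 0 := by simpa [hcS] using hc
        rw [this]
        unfold form
        rw [star_zero, zero_dotProduct]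
    · intro v _
      unfold form
      rw [star_zero, zero_dotProduct]
    · intro u u' _ _ h1 h2 v hv
      rw [form_add_left, h1 v hv, h2 v hv, add_zero]
  have hinv : ∀ M : Matrix (Fin n) (Fin n) ℂ, M * Z = Z * M → ∀ u ∈ E, M *ᵥ u ∈ E := by
    intro M hM u hu'
    refine Submodule.iSup_induction' (motive := fun u _ => M *ᵥ u ∈ E) _ ?_ ?_ ?_ hu'
    · intro c u hc
      by_cases hcS : c ∈ S
      · have hc' : u ∈ gen Z c := by simpa [hcS] using hc
        have h1 : gen Z c ≤ E := le_iSup₂_of_le c hcS le_rfl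
        exact h1 (gen_mapsTo hM c hc')
      · have : u = 0 := by simpa [hcS] using hc
        rw [this, mulVec_zero]
        exact E.zero_mem
    · rw [mulVec_zero]; exact E.zero_mem
    · intro u u' _ _ h1 h2
      rw [mulVec_add]
      exact E.add_mem h1 h2
  have hxE : x ∈ E := by
    have h1 : gen Z a ≤ E := le_iSup₂_of_le a (Or.inl rfl) le_rfl
    exact h1 (hmem a x hx)
  have hyE' : y ∈ E' := by
    have hb : b ∈ Sᶜ := by
      rintro (h | h)
      · exact hba h
      · exact hab h
    have h1 : gen Z b ≤ E' := le_iSup₂_of_le b hb le_rfl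
    exact h1 (hmem b y hy)
  apply hind
  refine ⟨E, ?_, ?_, ?_, hinv X hZX, hinv _ hZX'⟩
  · intro h
    rw [h, Submodule.mem_bot] at hxE
    exact hx0 hxE
  · intro h
    -- then `[z, y] = 0` for all `z`
    apply hy0
    have h1 : ∀ z, form H z y = 0 := fun z => horth z (by rw [h]; trivial) y hyE'
    have h2 : H *ᵥ y = 0 := by
      funext i
      have h3 := h1 (Pi.single i 1)
      unfold form at h3
      rw [← Pi.single_star, star_one, single_one_dotProduct] at h3
      exact h3
    have h4 : (H⁻¹ * H) *ᵥ y = 0 := by rw [← mulVec_mulVec, h2, mulVec_zero]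
    rwa [nonsing_inv_mul H hu, one_mulVec] at h4
  · intro u hu' h1
    apply eq_zero_of_form hu
    intro z
    have hz : z ∈ E ⊔ E' := by rw [htop]; trivial
    obtain ⟨z1, hz1, z2, hz2, rfl⟩ := Submodule.mem_sup.1 hz
    rw [form_add_right, h1 z1 hz1, horth u hu' z2 hz2, add_zero]

theorem eigen_of_root {Z : Matrix (Fin n) (Fin n) ℂ} {a : ℂ} (h : Z.charpoly.eval a = 0) :
    ∃ x : Fin n → ℂ, x ≠ 0 ∧ Z *ᵥ x = a • x := by
  rw [Matrix.eval_charpoly, ← Matrix.exists_mulVec_eq_zero_iff] at h
  obtain ⟨x, hx0, hx⟩ := h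
  refine ⟨x, hx0, ?_⟩
  rw [sub_mulVec, sub_eq_zero] at hx
  rw [← hx]
  simp

/-- A matrix with `Z G = - G Z` vanishes if `Z` and `-Z` have no common eigenvalue. -/
theorem anticomm_zero {Z G : Matrix (Fin n) (Fin n) ℂ} (hG : Z * G = -(G * Z))
    (hspec : ∀ (a : ℂ) (x y : Fin n → ℂ), x ≠ 0 → Z *ᵥ x = a • x → y ≠ 0 →
      Z *ᵥ y = (-a) • y → False) : G = 0 := by
  have hcop : IsCoprime Z.charpoly (Z.charpoly.comp (-X)) := by
    rw [Polynomial.isCoprime_iff_aeval_ne_zero_of_isAlgClosed ℂ ℂ]
    intro a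
    by_contra hcon
    push Not at hcon
    obtain ⟨h1, h2⟩ := hcon
    rw [Polynomial.coe_aeval_eq_eval] at h1 h2
    rw [Polynomial.eval_comp] at h2
    simp only [Polynomial.eval_neg, Polynomial.eval_X] at h2
    obtain ⟨x, hx0, hx⟩ := eigen_of_root h1
    obtain ⟨y, hy0, hy⟩ := eigen_of_root h2
    exact hspec a x y hx0 hx hy0 hy
  obtain ⟨A, B, hAB⟩ := hcop
  have h1 := congrArg (Polynomial.aeval Z) hAB
  rw [map_add, map_mul, map_mul, map_one, Matrix.aeval_self_charpoly, mul_zero, zero_add,
    Polynomial.aeval_comp] at h1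
  simp only [map_neg, Polynomial.aeval_X] at h1
  have h2 : (-Z) * G = G * Z := by rw [neg_mul, hG, neg_neg]
  have h3 : ∀ k : ℕ, (-Z) ^ k * G = G * Z ^ k := by
    intro k
    induction k with
    | zero => simp
    | succ k ih => rw [pow_succ, mul_assoc, h2, ← mul_assoc, ih, mul_assoc, pow_succ]
  have h4 : Polynomial.aeval (-Z) Z.charpoly * G = G * Polynomial.aeval Z Z.charpoly := by
    rw [Polynomial.aeval_eq_sum_range, Polynomial.aeval_eq_sum_range, Finset.sum_mul,
      Finset.mul_sum]
    refine Finset.sum_congr rfl fun i _ => ?_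
    rw [smul_mul_assoc, mul_smul_comm, h3]
  rw [Matrix.aeval_self_charpoly, mul_zero] at h4
  calc G = 1 * G := (one_mul G).symm
    _ = 0 := by rw [← h1, mul_assoc, h4, mul_zero]

/-- A nonzero matrix `G` with `G (Z - c) = 0` yields an eigenvector of `Z` for `c`. -/
theorem eigen_of_mul {Z G : Matrix (Fin n) (Fin n) ℂ} {c : ℂ} (hG : G ≠ 0)
    (h : G * (Z - c • 1) = 0) : ∃ x : Fin n → ℂ, x ≠ 0 ∧ Z *ᵥ x = c • x := by
  have hdet : (Z - c • (1 : Matrix (Fin n) (Fin n) ℂ)).det = 0 := by
    by_contra hne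
    apply hG
    have hu : IsUnit (Z - c • (1 : Matrix (Fin n) (Fin n) ℂ)).det := isUnit_iff_ne_zero.2 hne
    calc G = G * (Z - c • 1) * (Z - c • 1)⁻¹ := by
          rw [mul_assoc, mul_nonsing_inv _ hu, mul_one]
      _ = 0 := by rw [h, zero_mul]
  obtain ⟨x, hx0, hx⟩ := Matrix.exists_mulVec_eq_zero_iff.2 hdet
  refine ⟨x, hx0, ?_⟩
  rwa [sub_mulVec, smul_mulVec, one_mulVec, sub_eq_zero] at hx

theorem star_mul_self_ne (u : ℂ) : star u * -u ≠ 1 := by
  intro h
  have h1 : star u * u = ((‖u‖ ^ 2 : ℝ) : ℂ) := by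
    rw [mul_comm]
    have := Complex.mul_conj u
    rw [Complex.normSq_eq_norm_sq] at this
    exact this
  have h2 : -(((‖u‖ ^ 2 : ℝ) : ℂ)) = 1 := by rw [← h1, ← h]; ring
  have h3 : -(‖u‖ ^ 2) = (1 : ℝ) := by exact_mod_cast h2
  nlinarith [sq_nonneg ‖u‖]

/-- Two commuting `H`-polar decompositions of an `H`-indecomposable matrix have the same
selfadjoint factors up to sign. -/
theorem unique_up_to_sign {H X U A U' A' : Matrix (Fin n) (Fin n) ℂ} (hH : H.IsHermitian)
    (hu : IsUnit H.det) (hind : ¬ Decomposable H X) (h : IsPolar H X U A) (hc : U * A = A * U)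
    (h' : IsPolar H X U' A') (hc' : U' * A' = A' * U') : A' = A ∨ A' = -A := by
  obtain ⟨hX, hU, hA⟩ := h
  obtain ⟨hX', hU', hA'⟩ := h'
  set V := adj H U with hV
  have hUV : U * V = 1 := mul_eq_one_comm.1 hU
  set V' := adj H U' with hV'
  have hUV' : U' * V' = 1 := mul_eq_one_comm.1 hU'
  -- `X^[*] = A V = V A`
  have hVA : V * A = A * V := by
    calc V * A = V * A * (U * V) := by rw [hUV, mul_one]
      _ = V * (A * U) * V := by simp only [mul_assoc]
      _ = V * (U * A) * V := by rw [hc]
      _ = (V * U) * A * V := by simp only [mul_assoc]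
      _ = A * V := by rw [hU, one_mul]
  have hXs : adj H X = A * V := by rw [hX, adj_mul hu, hA]
  -- `U` commutes with `X` and with `X^[*]`
  have hXU : X * U = U * X := by rw [hX]; simp only [mul_assoc]; rw [hc]
  have hXsU : adj H X * U = U * adj H X := by
    rw [hXs, mul_assoc, hU, mul_one, ← mul_assoc, hc, mul_assoc, hUV, mul_one]
  have hVA' : V' * A' = A' * V' := by
    calc V' * A' = V' * A' * (U' * V') := by rw [hUV', mul_one]
      _ = V' * (A' * U') * V' := by simp only [mul_assoc]
      _ = V' * (U' * A') * V' := by rw [hc']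
      _ = (V' * U') * A' * V' := by simp only [mul_assoc]
      _ = A' * V' := by rw [hU', one_mul]
  have hXs' : adj H X = A' * V' := by rw [hX', adj_mul hu, hA']
  have hXU' : X * U' = U' * X := by rw [hX']; simp only [mul_assoc]; rw [hc']
  have hXsU' : adj H X * U' = U' * adj H X := by
    rw [hXs', mul_assoc, hU', mul_one, ← mul_assoc, hc', mul_assoc, hUV', mul_one]
  -- `W = U⁻¹ U'`
  set W := V * U' with hW
  set Y := V' * U with hY
  have hWY : W * Y = 1 := by
    rw [hW, hY]
    calc V * U' * (V' * U) = V * (U' * V') * U := by simp only [mul_assoc]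
      _ = 1 := by rw [hUV', mul_one, hU]
  have hYW : Y * W = 1 := mul_eq_one_comm.1 hWY
  have hWadj : adj H W = Y := by
    rw [hW, adj_mul hu, hV, adj_adj hH hu, hY]
  have hWu : adj H W * W = 1 := by rw [hWadj, hYW]
  have hXV : X * V = V * X := by
    calc X * V = (V * U) * X * V := by rw [hU, one_mul]
      _ = V * (U * X) * V := by simp only [mul_assoc]
      _ = V * (X * U) * V := by rw [hXU]
      _ = V * X * (U * V) := by simp only [mul_assoc]
      _ = V * X := by rw [hUV, mul_one]
  have hXsV : adj H X * V = V * adj H X := by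
    calc adj H X * V = (V * U) * adj H X * V := by rw [hU, one_mul]
      _ = V * (U * adj H X) * V := by simp only [mul_assoc]
      _ = V * (adj H X * U) * V := by rw [hXsU]
      _ = V * adj H X * (U * V) := by simp only [mul_assoc]
      _ = V * adj H X := by rw [hUV, mul_one]
  have hXW : X * W = W * X := by
    rw [hW, ← mul_assoc, hXV, mul_assoc, hXU', ← mul_assoc]
  have hXsW : adj H X * W = W * adj H X := by
    rw [hW, ← mul_assoc, hXsV, mul_assoc, hXsU', ← mul_assoc]
  -- relations between `A` and `A'`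
  have hAW : A = W * A' := by
    rw [hW, mul_assoc, ← hX', hX, ← mul_assoc, hU, one_mul]
  have hAY : A = A' * Y := by
    have := congrArg (adj H) hAW
    rw [adj_mul hu, hA, hA', hWadj] at this
    exact this
  have hA'W : A' = A * W := by rw [hAY, mul_assoc, hYW, mul_one]
  have hA'Y : A' = Y * A := by
    conv_rhs => rw [hAW]
    rw [← mul_assoc, hYW, one_mul]
  have hU'W : U' = U * W := by rw [hW, ← mul_assoc, hUV, one_mul]
  -- `A U = A W U W`
  have hAU : A * U = A * W * U * W := by
    calc A * U = U * A := hc.symm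
      _ = U' * A' := by rw [← hX, hX']
      _ = A' * U' := hc'
      _ = A * W * U * W := by rw [hA'W, hU'W]; simp only [mul_assoc]
  have r1 : A * U * Y = A * W * U := by
    rw [hAU, mul_assoc, hWY, mul_one]
  have r2 : A * Y * U = A * U * W := by
    -- `A W = Y A`, hence `A U = Y A U W` and `W A U = A U W`
    have e1 : A * W = Y * A := by rw [← hA'W, hA'Y]
    have e2 : W * A = A * Y := by
      calc W * A = W * (A * (W * Y)) := by rw [hWY, mul_one]
        _ = W * (A * W) * Y := by simp only [mul_assoc]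
        _ = W * (Y * A) * Y := by rw [e1]
        _ = (W * Y) * A * Y := by simp only [mul_assoc]
        _ = A * Y := by rw [hWY, one_mul]
    calc A * Y * U = W * (A * U) := by rw [← e2, mul_assoc]
      _ = W * (A * W * U * W) := by rw [← hAU]
      _ = W * (Y * A * U * W) := by rw [e1]
      _ = (W * Y) * A * U * W := by simp only [mul_assoc]
      _ = A * U * W := by rw [hWY, one_mul]
  -- the anticommuting matrix
  have hG : A * Y - A * W = 0 := by
    apply anticomm_zero (Z := U)
    · have q1 : U * (A * Y) = A * W * U := by rw [← mul_assoc U A Y, hc, r1]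
      have q2 : U * (A * W) = A * Y * U := by rw [← mul_assoc U A W, hc, ← r2]
      rw [Matrix.mul_sub, Matrix.sub_mul, q1, q2]
      abel
    · intro a x y hx0 hx hy0 hy
      rcases spec_pair hu hind hU hXU hXsU hx0 hx hy0 hy with h1 | h1
      · -- `-a = a` is impossible, as `U` is invertible
        have ha : a = 0 := by
          have : (2 : ℂ) * a = 0 := by linear_combination -h1
          simpa using this
        apply hx0
        calc x = (V * U) *ᵥ x := by rw [hU, one_mulVec]
          _ = V *ᵥ (U *ᵥ x) := by rw [mulVec_mulVec]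
          _ = 0 := by rw [hx, ha, zero_smul, mulVec_zero]
      · exact star_mul_self_ne a h1
  have hAYW : A * Y = A * W := sub_eq_zero.1 hG
  have hsq : A * (W * W) = A := by
    rw [← mul_assoc, ← hAYW, mul_assoc, hYW, mul_one]
  by_contra hcon
  push Not at hcon
  obtain ⟨hn1, hn2⟩ := hcon
  -- then both `1` and `-1` are eigenvalues of `W`
  have g1 : A * (W - (-1 : ℂ) • 1) ≠ 0 := by
    intro h0
    apply hn2
    rw [mul_sub, mul_smul_comm, mul_one, sub_eq_zero, ← hA'W] at h0
    rw [h0]; simp
  have g2 : A * (W - (1 : ℂ) • 1) ≠ 0 := by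
    intro h0
    apply hn1
    rw [mul_sub, mul_smul_comm, mul_one, sub_eq_zero, ← hA'W] at h0
    rw [h0]; simp
  obtain ⟨x, hx0, hx⟩ := eigen_of_mul (Z := W) (c := 1) g1 (by
    have : A * (W - (-1 : ℂ) • 1) * (W - (1 : ℂ) • 1) = A * (W * W) - A := by
      simp only [one_smul, neg_smul, sub_neg_eq_add]
      noncomm_ring
    rw [this, hsq, sub_self])
  obtain ⟨y, hy0, hy⟩ := eigen_of_mul (Z := W) (c := -1) g2 (by
    have : A * (W - (1 : ℂ) • 1) * (W - (-1 : ℂ) • 1) = A * (W * W) - A := by
      simp only [one_smul, neg_smul, sub_neg_eq_add]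
      noncomm_ring
    rw [this, hsq, sub_self])
  rcases spec_pair hu hind hWu hXW hXsW hx0 hx hy0 hy with h1 | h1
  · norm_num at h1
  · rw [star_one] at h1
    norm_num at h1

/-- **Uniqueness up to sign.**  Let `H` be Hermitian and nonsingular and let `X ≠ 0` be
`H`-indecomposable.  If `X` has an `H`-polar decomposition with commuting factors then
`CPD(X, H) = 2`. -/
theorem result (n : ℕ) (H X : Matrix (Fin n) (Fin n) ℂ) (hH : H.IsHermitian)
    (hu : IsUnit H.det) (hX : X ≠ 0) (hind : ¬ Decomposable H X)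
    (hne : (cpdSet H X).Nonempty) : (cpdSet H X).encard = 2 := by
  obtain ⟨A, U, hP, hc⟩ := hne
  have hA0 : A ≠ 0 := by
    rintro rfl
    exact hX (by rw [hP.1, mul_zero])
  have hAne : A ≠ -A := by
    intro h
    apply hA0
    have h1 : (2 : ℂ) • A = 0 := by
      rw [two_smul]
      nth_rewrite 1 [h]
      simp
    simpa using h1
  have hset : cpdSet H X = {A, -A} := by
    ext B
    rw [Set.mem_insert_iff, Set.mem_singleton_iff]
    constructor
    · rintro ⟨U', hP', hc'⟩
      exact unique_up_to_sign hH hu hind hP hc hP' hc'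
    · rintro (rfl | rfl)
      · exact ⟨U, hP, hc⟩
      · refine ⟨-U, ⟨?_, ?_, ?_⟩, ?_⟩
        · rw [neg_mul_neg]; exact hP.1
        · have : adj H (-U) = -adj H U := by unfold adj; simp
          rw [this, neg_mul_neg]; exact hP.2.1
        · have : adj H (-A) = -adj H A := by unfold adj; simp
          rw [this, hP.2.2]
        · rw [neg_mul_neg, neg_mul_neg, hc]
  rw [hset, Set.encard_pair hAne]

end Pool.Agent.Results.MP_d7084b_al.UniqueUpToSign
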